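import Pool.Agent.Helper79.GS.St6

set_option autoImplicit false

namespace Pool.Agent.Helper31.GS

open Pool.Agent.Helper79.GS Pool.Agent.Helper19.SK Pool.Agent.Helper73.DC Finset

private lemma dig (x : ℕ → ℕ) (hx : ∀ i, x i < 3) : ∀ K : ℕ,
    ∑ i ∈ range K, x i * 3 ^ i < 3 ^ K ∧
      ∀ i < K, (∑ i ∈ range K, x i * 3 ^ i) / 3 ^ i % 3 = x i := by
  intro K
  induction K with
  | zero => simp
  | succ K ih =>
    obtain ⟨h1, h2⟩ := ih
    rw [Finset.sum_range_succ]
    refine ⟨?_, ?_⟩
    · have := hx K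
      have h3 : x K * 3 ^ K ≤ 2 * 3 ^ K := Nat.mul_le_mul_right _ (by omega)
      rw [pow_succ]; omega
    · intro i hi
      rcases Nat.lt_succ_iff_lt_or_eq.mp hi with h | h
      · have e : x K * 3 ^ K = (x K * 3 ^ (K - i - 1) * 3) * 3 ^ i := by
          rw [mul_assoc, mul_assoc, ← pow_succ', ← pow_add]
          congr 2; omega
        rw [e, Nat.add_mul_div_right _ _ (by positivity), Nat.add_mul_mod_self_right, h2 i h]
      · subst h
        rw [Nat.add_mul_div_right _ _ (by positivity), Nat.div_eq_of_lt h1, zero_add,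
          Nat.mod_eq_of_lt (hx i)]

private lemma uniq : ∀ K u v : ℕ, u < 3 ^ K → v < 3 ^ K →
    (∀ i < K, u / 3 ^ i % 3 = v / 3 ^ i % 3) → u = v := by
  intro K
  induction K with
  | zero => intro u v hu hv _; simp at hu hv; omega
  | succ K ih =>
    intro u v hu hv h
    have h0 := h 0 (by omega)
    simp at h0
    have h1 : u / 3 = v / 3 := by
      apply ih
      · rw [pow_succ] at hu; omega
      · rw [pow_succ] at hv; omega
      · intro i hi
        have := h (i + 1) (by omega)
        rwa [pow_succ', ← Nat.div_div_eq_div_mul, ← Nat.div_div_eq_div_mul] at this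
    omega

private lemma dgt_lt (x : Option Bool) : dgt x < 3 := by
  rcases x with _ | _ | _ <;> simp [dgt]

private lemma dgt_inj (x y : Option Bool) (h : dgt x = dgt y) : x = y := by
  rcases x with _ | _ | _ <;> rcases y with _ | _ | _ <;> simp_all [dgt]

private noncomputable def xs {n : ℕ} (P : Pos (Fin n × Fin n)) (i : ℕ) : ℕ :=
  if h : i < n * n then dgt (P (finProdFinEquiv.symm ⟨i, h⟩)) else 0

private lemma xs_lt {n : ℕ} (P : Pos (Fin n × Fin n)) (i : ℕ) : xs P i < 3 := by
  unfold xs; split_ifs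
  · exact dgt_lt _
  · omega

private lemma code_eq {n : ℕ} (P : Pos (Fin n × Fin n)) :
    codeB P = ∑ i ∈ range (n * n), xs P i * 3 ^ i := by
  unfold codeB
  rw [← Fin.sum_univ_eq_sum_range (fun i => xs P i * 3 ^ i) (n * n)]
  refine Finset.sum_congr rfl fun i _ => ?_
  have e : xs P i.val = dgt (P (finProdFinEquiv.symm i)) := by
    unfold xs; rw [dif_pos i.isLt]
  rw [e]
  unfold dgt
  rcases P (finProdFinEquiv.symm i) with _ | _ | _ <;> rfl

theorem hCOD : StCOD := by
  intro n
  have A : ∀ P : Pos (Fin n × Fin n), codeB P < 3 ^ (n * n) ∧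
      ∀ i : Fin (n * n), dg 3 (codeB P) i.val = dgt (P (finProdFinEquiv.symm i)) := by
    intro P
    rw [code_eq P]
    obtain ⟨h1, h2⟩ := dig (xs P) (xs_lt P) (n * n)
    refine ⟨h1, fun i => ?_⟩
    have h3 := h2 i.val i.isLt
    show (∑ i ∈ range (n * n), xs P i * 3 ^ i) / 3 ^ i.val % 3 = _
    rw [h3]
    unfold xs; rw [dif_pos i.isLt]
  have B : ∀ (u : ℕ) (P : Pos (Fin n × Fin n)), u < 3 ^ (n * n) →
      (∀ i : Fin (n * n), dg 3 u i.val = dgt (P (finProdFinEquiv.symm i))) → u = codeB P := by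
    intro u P hu h
    apply uniq (n * n) u (codeB P) hu (A P).1
    intro i hi
    have h1 := h ⟨i, hi⟩
    have h2 := (A P).2 ⟨i, hi⟩
    exact h1.trans h2.symm
  refine ⟨A, ?_, ?_, B⟩
  · intro P Q h
    funext v
    have h1 := (A P).2 (finProdFinEquiv v)
    have h2 := (A Q).2 (finProdFinEquiv v)
    rw [h] at h1
    simp only [Equiv.symm_apply_apply] at h1 h2
    exact dgt_inj _ _ (h1.symm.trans h2)
  · intro u hu
    refine ⟨fun v => if dg 3 u (finProdFinEquiv v).val = 0 then none
      else if dg 3 u (finProdFinEquiv v).val = 1 then some true else some false, ?_⟩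
    symm
    apply B u _ hu
    intro i
    simp only [Equiv.apply_symm_apply]
    have h3 : dg 3 u i.val < 3 := Nat.mod_lt _ (by norm_num)
    split_ifs with h1 h2
    · simp [dgt, h1]
    · simp [dgt, h2]
    · simp [dgt]; omega

end Pool.Agent.Helper31.GS
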