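import Pool.Agent.Helper79.GS.St6

set_option autoImplicit false

namespace Pool.Agent.Helper31.GS

open Pool.Agent.Helper79.GS Pool.Agent.Helper19.SK Pool.Agent.Helper73.DC Finset

theorem hFIN (hBND : StBND) (hENC : StENC) (hCOD : StCOD) (hPLY : StPLY) (hARE : StARE)
    (hTRN : StTRN) (hGSC : StGSC) (hWNM : StWNM) (hBMW : StBMW) : StFIN := by
  intro n m c P H hn hBd
  obtain ⟨hn1, hm1, hpl, hb0, hH0⟩ := hENC n m c P H hn
  obtain ⟨-, -, -, h14, hNb, -, -, -, -, -, h3, -, -, -, -, -, -, h16, -⟩ := hBND (enc n m c P H)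
  set w := enc n m c P H with hw
  set N := NN 16 w with hN
  rw [hn1] at h3 hNb
  have hNb' : pw N 3 (n * n) = 3 ^ (n * n) := by
    have : NbN N w = pw N 3 (nW w * nW w) := rfl
    rw [hn1] at this
    rw [← this, hNb]
  have hle : 3 ^ (n * n) ≤ N := by
    have h1 : PhN N w ≤ PhN N w ^ 14 := Nat.le_self_pow (by norm_num) _
    omega
  have hR : RW w = m + 2 * (n * n + 1) ^ 2 := by
    unfold RW; rw [hm1, hn1]
  have : Finite (Pos (Fin n × Fin n)) := by
    unfold Pos; infer_instance
  obtain ⟨-, hinj, hsurj, -⟩ := hCOD n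
  have T := hTRN (Pos (Fin n × Fin n)) ℕ (goArena (grid n)) (arN N n) codeB
    (fun a b h => hinj a b h) (fun c a b => (hPLY N n hle c a b).symm)
    (by
      intro c a' b' hmv
      have h1 : mvN N n (bn c) a' b' := hmv
      obtain ⟨ha, hb, -⟩ := h1
      rw [hNb'] at ha hb
      exact ⟨hsurj a' ha, hsurj b' hb⟩)
    (by
      intro a
      have h1 := hARE N n hle true a
      have h2 := hARE N n hle false a
      show (area (grid n) a true : ℤ) - (area (grid n) a false : ℤ) =
        (areaN N n 1 (codeB a) : ℤ) - (areaN N n 0 (codeB a) : ℤ)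
      rw [← h1, ← h2]; rfl)
    {Q | Q ∈ H} {u | H0W w u} (fun Q => (hH0 Q).symm) (m + 2 * (n * n + 1) ^ 2)
  have W := fun c' => hWNM (Pos (Fin n × Fin n)) (goArena (grid n)) (hGSC _ (grid n)) {Q | Q ∈ H}
    (m + 2 * (n * n + 1) ^ 2) P c' hBd
  have B := hBMW (Pos (Fin n × Fin n)) (goArena (grid n)) (insert P {Q | Q ∈ H}) false P
  have hb0' : b0W N w = codeB P := hb0 N hle
  show (if plW w = 1 then WN (arN N (nW w)) {u | H0W w u} (RW w) true (b0W N w)
    else ¬ WN (arN N (nW w)) {u | H0W w u} (RW w) false (b0W N w)) ↔ _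
  rw [hpl, hb0', hR, hn1]
  cases c with
  | true =>
    have : bn true = 1 := rfl
    rw [if_pos this, ← T true P, ← W true]
    exact B.1.symm
  | false =>
    have : ¬ bn false = 1 := by simp [bn]
    rw [if_neg this, ← T false P, ← W false]
    exact B.2.symm

end Pool.Agent.Helper31.GS
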